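import Pool.Agent.W800.CF3.Tool

/-! irr and F1. -/

namespace Pool.Agent.W800.CF3

open Finset Pool.Agent.W209.CF

theorem irr : S_irr := by
  intro V E _ _ _ _ inc hinc s hO e he
  by_contra hc
  push Not at hc
  have hd : ∀ v ∈ inc e, dg inc s v = 2 := by
    intro v hv
    have h1 := St_dg_le hO.1.1 v
    have h2 : dg inc s v ≠ 0 := dg_pos.2 ⟨e, hv, he⟩
    have h3 := hc v hv
    omega
  have hst := St_erase hO.1.1 e
  have hh : holes inc (Function.update s e 0) = holes inc s := by
    ext v
    rw [mem_holes, mem_holes]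
    have := dg_erase (inc := inc) he v
    split_ifs at this with h
    · have := hd v h
      omega
    · rw [this]; simp
  have hO1 : Opt1 inc (Function.update s e 0) := ⟨hst, fun s' hs' => by
    rw [hh]; exact hO.1.2 s' hs'⟩
  have h1 := hO.2 _ hO1
  have h2 : supp (Function.update s e 0) = (supp s).erase e := by
    ext x
    simp only [supp, mem_filter, mem_univ, true_and, mem_erase]
    by_cases hx : x = e
    · subst hx; simp
    · rw [Function.update_of_ne hx]; simp [hx]
  have h3 : e ∈ supp s := by simp [supp, he]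
  rw [h2] at h1
  exact absurd h1 (not_le.2 (card_erase_lt_of_mem h3))

section
variable {V E : Type} [Fintype V] [DecidableEq V] [Fintype E] [DecidableEq E]
variable {inc : E → Finset V}

/-- part (3) of F1 -/
theorem f1_three (hinc : ∀ e, (inc e).card = 3) {s : E → Fin 3} (hO : Opt2 inc s) {u : V} {h : E}
    (hE : Entry inc s u h) {a b : V} (ha : a ∈ inc h) (hb : b ∈ inc h) (hau : a ≠ u) (hbu : b ≠ u)
    (hab : a ≠ b) {ea eb : E} (hea : s ea ≠ 0) (haea : a ∈ inc ea) (heb : s eb ≠ 0)
    (hbeb : b ∈ inc eb) (hne : s ea ≠ s eb) : ∃ a' ∈ inc ea, a' ≠ a ∧ dg inc s a' = 1 := by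
  by_contra hc
  push Not at hc
  obtain ⟨huh, hdu, hd1⟩ := hE
  have hda := hd1 a ha hau
  have hdb := hd1 b hb hbu
  have hsh : s h = 0 := dg_eq_zero.1 hdu h huh
  have hincu : inc h = {u, a, b} := by
    obtain ⟨c, hcu, hca, hceq⟩ := three (hinc h) huh ha hau.symm
    have : b = c := by
      rw [hceq] at hb
      simp only [mem_insert, mem_singleton] at hb
      rcases hb with h1 | h1 | h1
      · exact absurd h1 hbu
      · exact absurd h1.symm hab
      · exact h1
    rw [hceq, this]
  have hbea : b ∉ inc ea := by
    intro hbe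
    have := only hdb hbe hea hbeb heb
    exact hne (by rw [this])
  set t := Function.update s ea 0 with ht
  have hhea : h ≠ ea := by
    rintro rfl
    exact hea hsh
  have hth : t h = 0 := by rw [ht, Function.update_of_ne hhea, hsh]
  have hdt : ∀ v, dg inc s v = dg inc t v + if v ∈ inc ea then 1 else 0 := dg_erase hea
  have hsub : holes inc t ⊆ insert a (holes inc s) := by
    intro v hv
    rw [mem_holes] at hv
    rw [mem_insert, mem_holes]
    have h1 := hdt v
    split_ifs at h1 with h2
    · by_cases h3 : v = a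
      · exact Or.inl h3
      · exact absurd (by omega) (hc v h2 h3)
    · right; omega
  have hkey := no_improve (t := t) hO.1 (St_erase hO.1.1 ea) hth (opp_ne_zero heb) (by
    intro v hv
    rw [hincu] at hv
    simp only [mem_insert, mem_singleton] at hv
    rcases hv with rfl | rfl | rfl
    · refine cnt_zero_of_dg ?_ (opp_ne_zero heb)
      have := hdt v
      omega
    · refine cnt_zero_of_dg ?_ (opp_ne_zero heb)
      have := hdt v
      rw [if_pos haea] at this
      omega
    · have h1 : cnt inc t (opp (s eb)) v = cnt inc s (opp (s eb)) v := by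
        refine cnt_congr (fun e he => ?_) _
        rw [ht, Function.update_of_ne]
        rintro rfl
        exact hbea he
      rw [h1]
      exact cnt_other hdb hbeb heb (opp_ne_zero heb) (opp_ne_self heb))
  have h2 : holes inc t \ inc h ⊆ (holes inc s).erase u := by
    intro v hv
    rw [mem_sdiff] at hv
    rw [mem_erase]
    have h3 := hsub hv.1
    rw [mem_insert] at h3
    refine ⟨fun e => hv.2 (e ▸ huh), ?_⟩
    rcases h3 with h3 | h3
    · exact absurd (h3 ▸ ha) hv.2
    · exact h3
  have h3 := card_le_card h2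
  have h4 := card_erase_lt_of_mem (mem_holes.2 hdu)
  omega

end

theorem f1 : S_irr → S_F1 := by
  intro _ V E _ _ _ _ inc hinc s hO u h hE a ha b hb hau hbu hab ea eb hea haea heb hbeb
  obtain ⟨huh, hdu, hd1⟩ := hE
  have hda := hd1 a ha hau
  have hdb := hd1 b hb hbu
  have hsh : s h = 0 := dg_eq_zero.1 hdu h huh
  have hincu : inc h = {u, a, b} := by
    obtain ⟨c, hcu, hca, hceq⟩ := three (hinc h) huh ha hau.symm
    have : b = c := by
      rw [hceq] at hb
      simp only [mem_insert, mem_singleton] at hb
      rcases hb with h1 | h1 | h1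
      · exact absurd h1 hbu
      · exact absurd h1.symm hab
      · exact h1
    rw [hceq, this]
  have hlt := card_erase_lt_of_mem (mem_holes.2 hdu)
  have hsub : holes inc s \ inc h ⊆ (holes inc s).erase u := by
    intro v hv
    rw [mem_sdiff] at hv
    exact mem_erase.2 ⟨fun e => hv.2 (e ▸ huh), hv.1⟩
  have hsubc := card_le_card hsub
  -- (1)
  have hne : s ea ≠ s eb := by
    intro heq
    have := no_improve hO.1 hO.1.1 hsh (opp_ne_zero heb) (by
      intro v hv
      rw [hincu] at hv
      simp only [mem_insert, mem_singleton] at hv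
      rcases hv with rfl | rfl | rfl
      · exact cnt_zero_of_dg hdu (opp_ne_zero heb)
      · exact cnt_other hda haea hea (opp_ne_zero heb) (by rw [heq]; exact opp_ne_self heb)
      · exact cnt_other hdb hbeb heb (opp_ne_zero heb) (opp_ne_self heb))
    omega
  refine ⟨?_, hne, f1_three hinc hO ⟨huh, hdu, hd1⟩ ha hb hau hbu hab hea haea heb hbeb hne,
    f1_three hinc hO ⟨huh, hdu, hd1⟩ hb ha hbu hau hab.symm heb hbeb hea haea hne.symm⟩
  -- (2)
  classical
  by_contra hcon
  set C : Finset E := univ.filter (fun e => Relation.ReflTransGen (Adj inc s) eb e) with hC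
  have hCcl : ∀ e ∈ C, ∀ e', Adj inc s e e' → e' ∈ C := by
    intro e he e' ha'
    rw [hC, mem_filter] at he ⊢
    exact ⟨mem_univ _, he.2.tail ha'⟩
  have hsymm : Std.Symm (Adj inc s) := ⟨fun x y hxy => Adj.symm hxy⟩
  have heaC : ea ∉ C := by
    intro he
    rw [hC, mem_filter] at he
    exact hcon ((Relation.ReflTransGen.stdSymm (r := Adj inc s)).symm _ _ he.2)
  have hebC : eb ∈ C := by
    rw [hC, mem_filter]
    exact ⟨mem_univ _, Relation.ReflTransGen.refl⟩
  set s' : E → Fin 3 := fun e => if e ∈ C then opp (s e) else s e with hs'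
  have hsw := fun v => cnt_swap (inc := inc) (s := s) hCcl v
  have h0 : ∀ e, s' e = 0 ↔ s e = 0 := by
    intro e
    simp only [hs']
    split_ifs
    · exact opp_eq_zero
    · rfl
  have hdg : ∀ v, dg inc s' v = dg inc s v := by
    intro v
    unfold dg
    rcases hsw v with h1 | h1
    · rw [h1 1 (by decide), h1 2 (by decide)]
    · rw [h1 1 (by decide), h1 2 (by decide), opp_one, opp_two, Nat.add_comm]
  have hSt' : St inc s' := by
    intro v
    have h2 := hO.1.1 v
    rcases hsw v with h1 | h1
    · rw [h1 1 (by decide), h1 2 (by decide)]; exact h2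
    · rw [h1 1 (by decide), h1 2 (by decide), opp_one, opp_two]; exact ⟨h2.2, h2.1⟩
  have hholes : holes inc s' = holes inc s := by
    ext v
    rw [mem_holes, mem_holes, hdg]
  have hea' : s' ea = s ea := by simp only [hs']; rw [if_neg heaC]
  have heb' : s' eb = opp (s eb) := by simp only [hs']; rw [if_pos hebC]
  have heq : s' eb = s ea := by
    rw [heb']
    exact ((ne_iff_opp heb hea).1 hne).symm
  have := no_improve hO.1 hSt' ((h0 h).2 hsh) (opp_ne_zero hea) (by
    intro v hv
    rw [hincu] at hv
    simp only [mem_insert, mem_singleton] at hv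
    rcases hv with rfl | rfl | rfl
    · exact cnt_zero_of_dg (by rw [hdg, hdu]) (opp_ne_zero hea)
    · refine cnt_other (by rw [hdg, hda]) haea (by rw [Ne, h0]; exact hea) (opp_ne_zero hea) ?_
      rw [hea']; exact opp_ne_self hea
    · refine cnt_other (by rw [hdg, hdb]) hbeb (by rw [Ne, h0]; exact heb) (opp_ne_zero hea) ?_
      rw [heq]; exact opp_ne_self hea)
  rw [hholes] at this
  omega

end Pool.Agent.W800.CF3
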