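import Pool.Agent.W800.CF3.Tool

/-! F2. -/

namespace Pool.Agent.W800.CF3

open Finset Pool.Agent.W209.CF

theorem f2 : S_irr → S_F2 := by
  intro hirr V E _ _ _ _ inc hinc s hO f w hw w' hw' hne hdw hdw'
  obtain ⟨z, hzw, hzw', hf⟩ := three (hinc f) hw hw' hne
  have hsf : s f = 0 := dg_eq_zero.1 hdw f hw
  have hsub : holes inc s \ inc f ⊆ (holes inc s).erase w := by
    intro v hv
    rw [mem_sdiff] at hv
    exact mem_erase.2 ⟨fun e => hv.2 (e ▸ hw), hv.1⟩
  have hsubc := card_le_card hsub
  have hlt := card_erase_lt_of_mem (mem_holes.2 hdw)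
  have hdz : dg inc s z = 2 := by
    have h2 := St_dg_le hO.1.1 z
    have h0 : dg inc s z ≠ 0 := by
      intro h0
      have := no_improve hO.1 hO.1.1 hsf (i := 1) (by decide) (by
        intro v hv
        rw [hf] at hv
        simp only [mem_insert, mem_singleton] at hv
        rcases hv with rfl | rfl | rfl
        · exact cnt_zero_of_dg hdw (by decide)
        · exact cnt_zero_of_dg hdw' (by decide)
        · exact cnt_zero_of_dg h0 (by decide))
      omega
    have h1 : dg inc s z ≠ 1 := by
      intro h1
      obtain ⟨e, hze, he⟩ := dg_pos.1 h0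
      have := no_improve hO.1 hO.1.1 hsf (opp_ne_zero he) (by
        intro v hv
        rw [hf] at hv
        simp only [mem_insert, mem_singleton] at hv
        rcases hv with rfl | rfl | rfl
        · exact cnt_zero_of_dg hdw (opp_ne_zero he)
        · exact cnt_zero_of_dg hdw' (opp_ne_zero he)
        · exact cnt_other h1 hze he (opp_ne_zero he) (opp_ne_self he))
      omega
    omega
  refine ⟨z, hf, hzw, hzw', hdz, ?_⟩
  intro e he hze v hve hvz
  by_contra hdv
  have hdv2 : dg inc s v = 2 := by
    have h2 := St_dg_le hO.1.1 v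
    have h0 : dg inc s v ≠ 0 := dg_pos.2 ⟨e, hve, he⟩
    omega
  obtain ⟨p, hpe, hdp⟩ := hirr V E inc hinc s hO e he
  have hpz : p ≠ z := by rintro rfl; omega
  have hpv : p ≠ v := by rintro rfl; omega
  have hince : inc e = {z, v, p} := by
    obtain ⟨c, hc1, hc2, hceq⟩ := three (hinc e) hze hve hvz.symm
    have : p = c := by
      rw [hceq] at hpe
      simp only [mem_insert, mem_singleton] at hpe
      rcases hpe with h1 | h1 | h1
      · exact absurd h1 hpz
      · exact absurd h1 hpv
      · exact h1
    rw [hceq, this]
  set t := Function.update s e 0 with ht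
  have hfe : f ≠ e := by
    rintro rfl
    exact he hsf
  have htf : t f = 0 := by rw [ht, Function.update_of_ne hfe, hsf]
  have hdt : ∀ v, dg inc s v = dg inc t v + if v ∈ inc e then 1 else 0 := dg_erase he
  have hsub2 : holes inc t ⊆ insert p (holes inc s) := by
    intro x hx
    rw [mem_holes] at hx
    rw [mem_insert, mem_holes]
    have h1 := hdt x
    split_ifs at h1 with h2
    · rw [hince] at h2
      simp only [mem_insert, mem_singleton] at h2
      rcases h2 with rfl | rfl | rfl
      · omega
      · omega
      · exact Or.inl rfl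
    · right; omega
  have hkey := no_improve (t := t) hO.1 (St_erase hO.1.1 e) htf he (by
    intro x hx
    rw [hf] at hx
    simp only [mem_insert, mem_singleton] at hx
    rcases hx with rfl | rfl | rfl
    · refine cnt_zero_of_dg ?_ he
      have := hdt x
      omega
    · refine cnt_zero_of_dg ?_ he
      have := hdt x
      omega
    · have h1 := cnt_erase (inc := inc) (c := s) (f := e) he x
      rw [if_pos ⟨hze, rfl⟩, ← ht] at h1
      have h2 : cnt inc s (s e) x ≤ 1 := by
        rcases eq_one_or_two he with h3 | h3
        · rw [h3]; exact (hO.1.1 x).1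
        · rw [h3]; exact (hO.1.1 x).2
      omega)
  have h3 : holes inc t \ inc f ⊆ insert p (((holes inc s).erase w).erase w') := by
    intro x hx
    rw [mem_sdiff] at hx
    have h4 := hsub2 hx.1
    rw [mem_insert] at h4 ⊢
    rcases h4 with h4 | h4
    · exact Or.inl h4
    · right
      rw [mem_erase, mem_erase]
      exact ⟨fun e => hx.2 (e ▸ hw'), fun e => hx.2 (e ▸ hw), h4⟩
  have h5 := card_le_card h3
  have h6 := card_insert_le p (((holes inc s).erase w).erase w')
  have h7 := card_erase_of_mem (mem_holes.2 hdw)
  have h8 : w' ∈ (holes inc s).erase w := mem_erase.2 ⟨hne.symm, mem_holes.2 hdw'⟩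
  have h9 := card_erase_of_mem h8
  have h10 : 0 < ((holes inc s).erase w).card := card_pos.2 ⟨_, h8⟩
  omega

end Pool.Agent.W800.CF3
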