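import Pool.Agent.W800.CF3.Tool

/-! MOVE: moving the hole through an entry. -/

namespace Pool.Agent.W800.CF3

open Finset Pool.Agent.W209.CF

section
variable {V E : Type} [Fintype V] [DecidableEq V] [Fintype E] [DecidableEq E]
variable {inc : E → Finset V}

theorem kd_erase {K : Finset E} {e : E} (he : e ∈ K) (v : V) :
    kd inc K v = kd inc (K.erase e) v + if v ∈ inc e then 1 else 0 := by
  unfold kd
  rw [Finset.filter_erase]
  split_ifs with h
  · have h1 : e ∈ K.filter (fun e => v ∈ inc e) := by simp [he, h]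
    rw [card_erase_add_one h1]
  · rw [erase_eq_of_notMem (by simp [h]), Nat.add_zero]

end

theorem move : S_F1 → S_F2 → S_F7 → S_oddK → S_move := by
  intro _ hF2 hF7 hodd V E _ _ _ _ inc hinc s X hO3 u huL h hE e he
  have hO2 := hO3.1
  have hO1 := hO2.1
  have hSt := hO1.1
  obtain ⟨hOdd, hkd⟩ := hodd V E inc hinc s hO2 u h hE
  set K := KK inc s h with hK
  have huh := hE.1
  have hdu := hE.2.1
  have hd1 := hE.2.2
  have hsh : s h = 0 := dg_eq_zero.1 hdu h huh
  have hhK : h ∈ K := by rw [hK, KK]; exact mem_insert_self _ _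
  have hKer : K.erase h = comp inc s h := by
    rw [hK, KK, erase_insert]
    intro hh
    exact (mem_comp.1 hh).1 hsh
  have huK : u ∈ VK inc K := mem_VK.2 ⟨h, hhK, huh⟩
  obtain ⟨c, hc0, hcSt, -⟩ := hOdd.col e he
  obtain ⟨p, hpe, hkp, hq⟩ := hOdd.pri1 e he
  have hpK : p ∈ VK inc K := mem_VK.2 ⟨e, he, hpe⟩
  -- coloured hyperedges outside `K` avoid `K`
  have hiso : ∀ v ∈ VK inc K, ∀ e', v ∈ inc e' → e' ∉ K → s e' = 0 := by
    intro v hv e' hve' he'
    by_contra h0
    exact (Finset.disjoint_left.1 (KK_iso h0 he')) hve' hv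
  set s' : E → Fin 3 := fun e' => if e' ∈ K then c e' else s e' with hs'
  have hs'K : ∀ e' ∈ K, s' e' = c e' := fun e' h' => by simp only [hs']; rw [if_pos h']
  have hs'N : ∀ e', e' ∉ K → s' e' = s e' := fun e' h' => by simp only [hs']; rw [if_neg h']
  have hs'0 : ∀ e' ∈ K, (s' e' ≠ 0 ↔ e' ≠ e) := by
    intro e' h'
    rw [hs'K e' h', hc0]
    exact ⟨fun h => h.2, fun h => ⟨h', h⟩⟩
  have hin : ∀ v ∈ VK inc K, ∀ e', v ∈ inc e' → s' e' = c e' := by
    intro v hv e' hve'
    by_cases h' : e' ∈ K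
    · exact hs'K e' h'
    · rw [hs'N e' h', hiso v hv e' hve' h']
      by_contra h0
      exact h' ((hc0 e').1 (Ne.symm h0)).1
  have hout : ∀ v, v ∉ VK inc K → ∀ e', v ∈ inc e' → s' e' = s e' := by
    intro v hv e' hve'
    exact hs'N e' (fun h' => hv (mem_VK.2 ⟨e', h', hve'⟩))
  have hdin : ∀ v ∈ VK inc K, kd inc K v = dg inc s' v + if v ∈ inc e then 1 else 0 := by
    intro v hv
    rw [dg_congr (hin v hv), dg_eq_kd (K := K.erase e) (fun e' => by
      rw [hc0, mem_erase]; exact and_comm)]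
    exact kd_erase he v
  have hdout : ∀ v, v ∉ VK inc K → dg inc s' v = dg inc s v := fun v hv => dg_congr (hout v hv)
  have hSt' : St inc s' := by
    intro v
    by_cases hv : v ∈ VK inc K
    · rw [cnt_congr (hin v hv), cnt_congr (hin v hv)]
      exact hcSt v
    · rw [cnt_congr (hout v hv), cnt_congr (hout v hv)]
      exact hSt v
  have hsK0 : ∀ v ∈ VK inc K, dg inc s v = 0 → v = u := by
    intro v hv h0
    have h1 := hkd v hv
    have h2 := kd_pos.2 hv
    split_ifs at h1 with h3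
    · by_contra hne
      have := hd1 v h3 hne
      omega
    · omega
  have hs'K0 : ∀ v ∈ VK inc K, (dg inc s' v = 0 ↔ v = p) := by
    intro v hv
    have h1 := hdin v hv
    have h2 := kd_pos.2 hv
    constructor
    · intro h0
      split_ifs at h1 with h3
      · by_contra hne
        have := hq v h3 hne
        omega
      · omega
    · rintro rfl
      rw [if_pos hpe] at h1
      omega
  have hholes : holes inc s' = insert p ((holes inc s).erase u) := by
    ext v
    rw [mem_holes, mem_insert, mem_erase, mem_holes]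
    by_cases hv : v ∈ VK inc K
    · rw [hs'K0 v hv]
      constructor
      · intro h1; exact Or.inl h1
      · rintro (h1 | ⟨h1, h2⟩)
        · exact h1
        · exact absurd (hsK0 v hv h2) h1
    · rw [hdout v hv]
      constructor
      · intro h1
        exact Or.inr ⟨fun e => hv (e ▸ huK), h1⟩
      · rintro (h1 | ⟨-, h2⟩)
        · exact absurd (h1 ▸ hpK) hv
        · exact h2
  have hpn : p ∉ (holes inc s).erase u := by
    intro hp
    rw [mem_erase, mem_holes] at hp
    exact hp.1 (hsK0 p hpK hp.2)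
  have huH : u ∈ holes inc s := mem_holes.2 hdu
  have hcard : (holes inc s').card = (holes inc s).card := by
    rw [hholes, card_insert_of_notMem hpn, card_erase_add_one huH]
  have hO1' : Opt1 inc s' := ⟨hSt', fun t ht => by rw [hcard]; exact hO1.2 t ht⟩
  -- supports
  have hsuppc : (supp s').card = (supp s).card := by
    have h1 : supp s' = (supp s \ K) ∪ K.erase e := by
      ext x
      simp only [supp, mem_filter, mem_univ, true_and, mem_union, mem_sdiff, mem_erase]
      by_cases hx : x ∈ K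
      · rw [hs'0 x hx]; simp [hx]
      · rw [hs'N x hx]; simp [hx]
    have h2 : supp s = (supp s \ K) ∪ K.erase h := by
      ext x
      simp only [supp, mem_filter, mem_univ, true_and, mem_union, mem_sdiff]
      rw [hKer]
      constructor
      · intro h0
        by_cases hx : x ∈ K
        · right
          rw [hK, KK, mem_insert] at hx
          rcases hx with rfl | hx
          · exact absurd hsh h0
          · exact hx
        · exact Or.inl ⟨h0, hx⟩
      · rintro (h0 | h0)
        · exact h0.1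
        · exact (mem_comp.1 h0).1
    have hdis : ∀ x, Disjoint (supp s \ K) (K.erase x) := by
      intro x
      rw [Finset.disjoint_left]
      intro y hy hy'
      exact (mem_sdiff.1 hy).2 (mem_of_mem_erase hy')
    rw [h1, card_union_of_disjoint (hdis e), card_erase_of_mem he]
    conv_rhs => rw [h2]
    rw [card_union_of_disjoint (hdis h), card_erase_of_mem hhK]
  have hO2' : Opt2 inc s' := ⟨hO1', fun t ht => by rw [hsuppc]; exact hO2.2 t ht⟩
  -- the hyperedges of `X`
  have huX : ∀ f ∈ X, u ∉ inc f := (mem_filter.1 huL).2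
  have hXK : ∀ f ∈ X, ∀ v ∈ inc f, v ∉ VK inc K := by
    intro f hf
    have h2 := hO3.2.1.1 f hf
    obtain ⟨w, hw, w', hw', hww⟩ := Finset.one_lt_card.1 (by omega : 1 < (inc f ∩ holes inc s).card)
    rw [mem_inter, mem_holes] at hw hw'
    obtain ⟨z, hfz, hzw, hzw', hdz, -⟩ :=
      hF2 V E inc hinc s hO2 f w hw.1 w' hw'.1 hww hw.2 hw'.2
    have huw : u ≠ w := fun e => huX f hf (e ▸ hw.1)
    have huw' : u ≠ w' := fun e => huX f hf (e ▸ hw'.1)
    have hz := hF7 V E inc hinc s hO2 u h hE f w w' z hfz hww hzw hzw' hw.2 hw'.2 huw huw'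
    intro v hv hvK
    rw [hfz] at hv
    simp only [mem_insert, mem_singleton] at hv
    rcases hv with rfl | rfl | rfl
    · exact huw (hsK0 _ hvK hw.2).symm
    · exact huw' (hsK0 _ hvK hw'.2).symm
    · exact hz hvK
  have hpX : ∀ f ∈ X, p ∉ inc f := fun f hf hp => hXK f hf p hp hpK
  have hXin : ∀ f ∈ X, inc f ∩ holes inc s' = inc f ∩ holes inc s := by
    intro f hf
    ext v
    rw [mem_inter, mem_inter, hholes, mem_insert, mem_erase]
    constructor
    · rintro ⟨h1, rfl | h2⟩
      · exact absurd h1 (hpX f hf)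
      · exact ⟨h1, h2.2⟩
    · rintro ⟨h1, h2⟩
      exact ⟨h1, Or.inr ⟨fun e => huX f hf (e ▸ h1), h2⟩⟩
  have hTwo : TwoH inc s' X := by
    refine ⟨fun f hf => ?_, fun f hf g hg hfg => ?_⟩
    · rw [hXin f hf]; exact hO3.2.1.1 f hf
    · rw [hXin f hf, hXin g hg]; exact hO3.2.1.2 f hf g hg hfg
  have hO3' : Opt3 inc s' X := ⟨hO2', hTwo, hO3.2.2⟩
  have hLL : LL inc s' X = insert p ((LL inc s X).erase u) := by
    ext v
    unfold LL
    rw [mem_filter, hholes, mem_insert, mem_insert, mem_erase, mem_erase, mem_filter]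
    constructor
    · rintro ⟨h1 | h1, h2⟩
      · exact Or.inl h1
      · exact Or.inr ⟨h1.1, h1.2, h2⟩
    · rintro (h1 | h1)
      · exact ⟨Or.inl h1, fun f hf => h1 ▸ hpX f hf⟩
      · exact ⟨Or.inr ⟨h1.1, h1.2.1⟩, h1.2.2⟩
  have hEntry : Entry inc s' p e := by
    refine ⟨hpe, (hs'K0 p hpK).2 rfl, fun v hv hvp => ?_⟩
    have h1 := hdin v (mem_VK.2 ⟨e, he, hv⟩)
    rw [if_pos hv, hq v hv hvp] at h1
    omega
  -- the component
  have hmemK : ∀ x, s' x ≠ 0 → (∃ v ∈ inc x, v ∈ VK inc K) → x ∈ K.erase e := by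
    rintro x hx ⟨v, hv, hvK⟩
    have hxK : x ∈ K := by
      by_contra hxK
      rw [hs'N x hxK] at hx
      exact hx (hiso v hvK x hv hxK)
    exact mem_erase.2 ⟨(hs'0 x hxK).1 hx, hxK⟩
  have hstep : ∀ x y, x ∈ K.erase e → Adj inc s' x y → y ∈ K.erase e := by
    rintro x y hx ⟨-, hy, v, hvx, hvy⟩
    exact hmemK y hy ⟨v, hvy, mem_VK.2 ⟨x, mem_of_mem_erase hx, hvx⟩⟩
  have hsub : comp inc s' e ⊆ K.erase e := by
    intro x hx
    rw [mem_comp] at hx
    obtain ⟨-, y, hy0, ⟨v, hve, hvy⟩, hyx⟩ := hx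
    have hyK : y ∈ K.erase e := hmemK y hy0 ⟨v, hvy, mem_VK.2 ⟨e, he, hve⟩⟩
    clear hy0 hvy
    induction hyx with
    | refl => exact hyK
    | tail _ hab ih => exact hstep _ _ ih hab
  have hcomp : comp inc s' e = K.erase e := by
    refine hOdd.conn e he _ hsub ?_ ?_
    · -- a vertex of `e` of degree two
      obtain ⟨q, hqe, hqp⟩ : ∃ q ∈ inc e, q ≠ p := by
        have h3 := hinc e
        obtain ⟨q, hq1, hq2⟩ := Finset.exists_mem_ne (by omega : 1 < (inc e).card) p
        exact ⟨q, hq1, hq2⟩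
      have h2 := hq q hqe hqp
      have h3 := kd_erase (inc := inc) he q
      rw [if_pos hqe, h2] at h3
      have h4 : kd inc (K.erase e) q ≠ 0 := by omega
      rw [kd_pos, mem_VK] at h4
      obtain ⟨e2, he2, hqe2⟩ := h4
      refine ⟨e2, comp_touch ?_ hqe hqe2⟩
      exact (hs'0 e2 (mem_of_mem_erase he2)).2 (ne_of_mem_erase he2)
    · rintro e1 he1 e2 he2 ⟨v, hv1, hv2⟩
      refine comp_closed he1 ⟨(mem_comp.1 he1).1, ?_, v, hv1, hv2⟩
      exact (hs'0 e2 (mem_of_mem_erase he2)).2 (ne_of_mem_erase he2)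
  refine ⟨s', p, hpe, hkp, hO3', hs'N, hs'0, hLL, hEntry, ?_, hcomp⟩
  rw [KK, hcomp, insert_erase he]

end Pool.Agent.W800.CF3
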