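import Pool.Agent.W209.CF.Basic

/-! Tools: colouring one more hyperedge. -/

namespace Pool.Agent.W800.CF3

open Finset Pool.Agent.W209.CF

section
variable {V E : Type} [Fintype V] [DecidableEq V] [Fintype E] [DecidableEq E]
variable {inc : E → Finset V}

theorem tool {t : E → Fin 3} (ht : St inc t) {f : E} (hf : t f = 0) {i : Fin 3} (hi : i ≠ 0)
    (hv : ∀ v ∈ inc f, cnt inc t i v = 0) :
    St inc (Function.update t f i) ∧ holes inc (Function.update t f i) = holes inc t \ inc f := by
  constructor
  · intro v
    have h1 := (ht v).1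
    have h2 := (ht v).2
    rw [cnt_update hf i (by decide), cnt_update hf i (by decide)]
    constructor
    · split_ifs with h
      · have := hv v h.1
        rw [h.2] at this
        omega
      · omega
    · split_ifs with h
      · have := hv v h.1
        rw [h.2] at this
        omega
      · omega
  · ext v
    rw [mem_holes, dg_update hf hi, mem_sdiff, mem_holes]
    split_ifs with h
    · simp [h]
    · simp [h]

/-- an optimal state cannot be improved -/
theorem no_improve {s t : E → Fin 3} (hs : Opt1 inc s) (ht : St inc t) {f : E} (hf : t f = 0)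
    {i : Fin 3} (hi : i ≠ 0) (hv : ∀ v ∈ inc f, cnt inc t i v = 0) :
    (holes inc s).card ≤ (holes inc t \ inc f).card := by
  obtain ⟨h1, h2⟩ := tool ht hf hi hv
  rw [← h2]
  exact hs.2 _ h1

theorem only {s : E → Fin 3} {v : V} (h : dg inc s v = 1) {e e' : E} (he : v ∈ inc e)
    (hs : s e ≠ 0) (he' : v ∈ inc e') (hs' : s e' ≠ 0) : e = e' := by
  rw [dg_eq_card] at h
  exact Finset.card_le_one.1 h.le e (by simp [he, hs]) e' (by simp [he', hs'])

theorem cnt_zero_of_dg {s : E → Fin 3} {v : V} (h : dg inc s v = 0) {i : Fin 3} (hi : i ≠ 0) :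
    cnt inc s i v = 0 := by
  rw [cnt_eq_zero]
  intro e he h2
  rw [dg_eq_zero.1 h e he] at h2
  exact hi h2.symm

/-- at a vertex of degree one only one colour is seen -/
theorem cnt_other {s : E → Fin 3} {v : V} (h : dg inc s v = 1) {e : E} (he : v ∈ inc e)
    (hs : s e ≠ 0) {i : Fin 3} (hi : i ≠ 0) (hne : i ≠ s e) : cnt inc s i v = 0 := by
  rw [cnt_eq_zero]
  intro e' he' h2
  have := only h he hs he' (by rw [h2]; exact hi)
  rw [← this] at h2
  exact hne h2.symm

theorem St_erase {s : E → Fin 3} (hs : St inc s) (e : E) : St inc (Function.update s e 0) := by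
  intro v
  have h1 := hs v
  have h2 := cnt_erase (inc := inc) (c := s) (f := e) (i := 1) (by decide) v
  have h3 := cnt_erase (inc := inc) (c := s) (f := e) (i := 2) (by decide) v
  omega

theorem three {A : Finset V} (h : A.card = 3) {a b : V} (ha : a ∈ A) (hb : b ∈ A) (hab : a ≠ b) :
    ∃ c, c ≠ a ∧ c ≠ b ∧ A = {a, b, c} := by
  have h1 : ((A.erase a).erase b).card = 1 := by
    rw [card_erase_of_mem (mem_erase.2 ⟨hab.symm, hb⟩), card_erase_of_mem ha, h]
  obtain ⟨c, hc⟩ := card_eq_one.1 h1
  have hc' : c ∈ (A.erase a).erase b := by rw [hc]; simp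
  rw [mem_erase, mem_erase] at hc'
  refine ⟨c, hc'.2.1, hc'.1, ?_⟩
  ext x
  simp only [mem_insert, mem_singleton]
  constructor
  · intro hx
    by_cases h2 : x = a
    · exact Or.inl h2
    by_cases h3 : x = b
    · exact Or.inr (Or.inl h3)
    have : x ∈ (A.erase a).erase b := by simp [hx, h2, h3]
    rw [hc] at this
    exact Or.inr (Or.inr (by simpa using this))
  · rintro (rfl | rfl | rfl)
    · exact ha
    · exact hb
    · exact hc'.2.2

end

end Pool.Agent.W800.CF3
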